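import Pool.Agent.H401R2.Beta

set_option autoImplicit false

/-!
# MP_13bed0_nt: the truncation `Ξ_27` does not have monotonic zeros in the closed first quadrant

`Ξ_27` has a non-real zero with real part about `3143.22` and imaginary part about `0.315`, and a
real zero between `3145.25` and `3150`.
-/

namespace Pool.Agent.Results.MP_13bed0_nt.NotMonotonic

open Complex
open Pool.Agent.H401R2 Pool.Agent.H401R2.XiTrunc

theorem result :
    (∃ α β : ℂ, α ∈ Quadrant ∧ β ∈ Quadrant ∧ XiN 27 α = 0 ∧ XiN 27 β = 0 ∧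
      3143.19 ≤ α.re ∧ α.re ≤ 3143.26 ∧ 0.28 ≤ α.im ∧ α.im ≤ 0.35 ∧
      3145.25 ≤ β.re ∧ β.re ≤ 3150 ∧ β.im = 0 ∧
      α.re < β.re ∧ β.im < α.im) ∧
    ¬ ∀ N : ℕ, 1 ≤ N → MonotonicZeros (XiN N) Quadrant := by
  have main : ∃ α β : ℂ, α ∈ Quadrant ∧ β ∈ Quadrant ∧ XiN 27 α = 0 ∧ XiN 27 β = 0 ∧
      3143.19 ≤ α.re ∧ α.re ≤ 3143.26 ∧ 0.28 ≤ α.im ∧ α.im ≤ 0.35 ∧
      3145.25 ≤ β.re ∧ β.re ≤ 3150 ∧ β.im = 0 ∧
      α.re < β.re ∧ β.im < α.im := by
    obtain ⟨s, hs, hH⟩ := exists_zero_Hf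
    obtain ⟨x, hx1, hx2, hx0⟩ := exists_real_zero
    have hr1 : |(s - sc).re| ≤ 0.03 := (abs_re_le_norm _).trans hs
    have hi1 : |(s - sc).im| ≤ 0.03 := (abs_im_le_norm _).trans hs
    rw [sub_re] at hr1
    rw [sub_im] at hi1
    have hre : sc.re = 0.815 := by simp [sc]
    have him : sc.im = 3143.2207 := by simp [sc]
    rw [hre] at hr1
    rw [him] at hi1
    obtain ⟨a1, a2⟩ := abs_le.1 hr1
    obtain ⟨b1, b2⟩ := abs_le.1 hi1
    have hspos : 0 < s.re := by norm_num at a1; linarith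
    have hs1 : s ≠ 1 := by
      intro h
      rw [h, one_im] at b1
      norm_num at b1
    have hz : XiN 27 (zOf s) = 0 := by
      rw [XiN_eq_Hf hspos hs1, hH, mul_zero]
    have hzre : (zOf s).re = s.im := by
      have := zOf_re s.re s.im
      rwa [re_add_im] at this
    have hzim : (zOf s).im = -(s.re - 1 / 2) := by
      have := zOf_im s.re s.im
      rwa [re_add_im] at this
    have hα : XiN 27 ((starRingEnd ℂ) (zOf s)) = 0 := by
      rw [XiN_conj, hz, map_zero]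
    have hαre : ((starRingEnd ℂ) (zOf s)).re = s.im := by rw [conj_re, hzre]
    have hαim : ((starRingEnd ℂ) (zOf s)).im = s.re - 1 / 2 := by rw [conj_im, hzim, neg_neg]
    norm_num at a1 a2 b1 b2 hx1 hx2
    refine ⟨(starRingEnd ℂ) (zOf s), (x : ℂ), ⟨?_, ?_⟩, ⟨?_, ?_⟩, hα, hx0, ?_, ?_, ?_, ?_, ?_, ?_,
      ofReal_im x, ?_, ?_⟩
    · rw [hαre]; linarith
    · rw [hαim]; linarith
    · rw [ofReal_re]; linarith
    · rw [ofReal_im]
    · rw [hαre]; norm_num; linarith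
    · rw [hαre]; norm_num; linarith
    · rw [hαim]; norm_num; linarith
    · rw [hαim]; norm_num; linarith
    · rw [ofReal_re]; norm_num; linarith
    · rw [ofReal_re]; linarith
    · rw [hαre, ofReal_re]; linarith
    · rw [hαim, ofReal_im]; linarith
  refine ⟨main, fun hall => ?_⟩
  obtain ⟨α, β, hα, hβ, h1, h2, _, _, _, _, _, _, _, hlt, him⟩ := main
  have := hall 27 (by norm_num) α hα β hβ h1 h2 hlt
  linarith

end Pool.Agent.Results.MP_13bed0_nt.NotMonotonic
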